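import Pool.Agent.MP_90b0e7_co.UdDefs

/-! The construction: all `(k+1)`-subsets of an `r`-set, together with, for each `k`-subset `S`,
the sets `S ∪ {p_i}`, `i < n_S`. -/

open Finset Filter Topology

namespace Pool.Agent.UD

/-- Densities are preserved by injections of the vertex set. -/
theorem dens_map {V W : Type} (φ : W ↪ V) (E : Set (Finset V)) (S : Finset W) :
    dens {f | f.map φ ∈ E} S = dens E (S.map φ) := by
  classical
  rw [dens_eq, dens_eq, Finset.card_map]
  congr 2
  refine Finset.card_bij (fun X _ => X.map φ) ?_ ?_ ?_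
  · intro X hX
    simp only [Finset.mem_filter, Finset.mem_powerset] at hX ⊢
    refine ⟨Finset.map_subset_map.2 hX.1, ?_⟩
    intro e he hs
    obtain ⟨f, hf, rfl⟩ := Finset.subset_map_iff.1 hs
    exact hX.2 f he hf
  · intro X _ Y _ h
    exact Finset.map_injective φ h
  · intro Y hY
    simp only [Finset.mem_filter, Finset.mem_powerset] at hY
    obtain ⟨X, hX, rfl⟩ := Finset.subset_map_iff.1 hY.1
    refine ⟨X, ?_, rfl⟩
    simp only [Finset.mem_filter, Finset.mem_powerset]
    exact ⟨hX, fun f hf hs => hY.2 _ hf (Finset.map_subset_map.2 hs)⟩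

/-- The working form of `FinUniform`, with vertices among the natural numbers. -/
def NatUniform (K : ℕ) (d : ℝ) : Prop :=
  ∃ (E : Set (Finset ℕ)) (T : Finset ℕ), (∀ e ∈ E, e.card = K) ∧ dens E T = d

theorem NatUniform.finUniform {K : ℕ} {d : ℝ} (h : NatUniform K d) : FinUniform K d := by
  obtain ⟨E, T, hE, rfl⟩ := h
  let φ : Fin T.card ↪ ℕ := T.equivFin.symm.toEmbedding.trans (Function.Embedding.subtype _)
  have hφ : (Finset.univ : Finset (Fin T.card)).map φ = T := by
    ext v
    simp only [Finset.mem_map, Finset.mem_univ, true_and]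
    constructor
    · rintro ⟨i, rfl⟩
      exact (T.equivFin.symm i).2
    · intro hv
      exact ⟨T.equivFin ⟨v, hv⟩, by simp [φ]⟩
  refine ⟨T.card, {f | f.map φ ∈ E}, ?_, ?_⟩
  · intro f hf
    have := hE _ hf
    rwa [Finset.card_map] at this
  · rw [dens_map, hφ]

/-- Adding one common vertex to all edges. -/
theorem NatUniform.succ {K : ℕ} {d : ℝ} (h : NatUniform K d) :
    NatUniform (K + 1) ((1 + d) / 2) := by
  classical
  obtain ⟨E, T, hE, rfl⟩ := h
  obtain ⟨w, hw⟩ : ∃ w, w ∉ T := Infinite.exists_notMem_finset T
  refine ⟨{f | ∃ e ∈ E, e ⊆ T ∧ f = insert w e}, insert w T, ?_, ?_⟩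
  · rintro f ⟨e, he, heT, rfl⟩
    rw [Finset.card_insert_of_notMem (fun h => hw (heT h)), hE e he]
  · rw [dens_decomp _ {w} (insert w T) (by simp)]
    have h1 : insert w T \ {w} = T := by
      ext v
      simp only [Finset.mem_sdiff, Finset.mem_insert, Finset.mem_singleton]
      constructor
      · rintro ⟨h | h, h'⟩
        · exact absurd h h'
        · exact h
      · intro h
        exact ⟨Or.inr h, fun h' => hw (h' ▸ h)⟩
    have h2 : ({w} : Finset ℕ).powerset = {∅, {w}} := by
      ext X
      simp [Finset.subset_singleton_iff]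
    rw [h1, h2, Finset.sum_pair (by simp)]
    have h3 : dens (lnk {f | ∃ e ∈ E, e ⊆ T ∧ f = insert w e} {w} ∅) T = 1 := by
      rw [dens_ignore _ (Finset.empty_subset T), dens_on_empty]
      · intro h
        obtain ⟨f, ⟨e, he, heT, rfl⟩, h4, _⟩ := h
        have : w ∈ insert w e ∩ {w} := by simp
        simpa using h4 this
      · intro f hf
        obtain ⟨f', ⟨e, he, heT, rfl⟩, h4, _⟩ := hf
        have : w ∈ insert w e ∩ {w} := by simp
        exact absurd (h4 this) (by simp)
    have h4 : dens (lnk {f | ∃ e ∈ E, e ⊆ T ∧ f = insert w e} {w} {w}) T = dens E T := by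
      rw [dens_eq, dens_eq]
      congr 3
      ext X
      simp only [Finset.mem_filter, Finset.mem_powerset]
      constructor
      · rintro ⟨hX, h⟩
        refine ⟨hX, fun e he heX => ?_⟩
        refine h e ⟨insert w e, ⟨e, he, heX.trans hX, rfl⟩, Finset.inter_subset_right, ?_⟩ heX
        ext v
        simp only [Finset.mem_sdiff, Finset.mem_insert, Finset.mem_singleton]
        constructor
        · intro hv
          exact ⟨Or.inr hv, fun h' => hw (h' ▸ hX (heX hv))⟩
        · rintro ⟨h | h, h'⟩
          · exact absurd h h'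
          · exact h
      · rintro ⟨hX, h⟩
        refine ⟨hX, ?_⟩
        rintro f ⟨f', ⟨e, he, heT, rfl⟩, _, rfl⟩ hf
        apply h e he
        intro v hv
        apply hf
        simp only [Finset.mem_sdiff, Finset.mem_insert, Finset.mem_singleton]
        exact ⟨Or.inr hv, fun h' => hw (h' ▸ heT hv)⟩
    rw [h3, h4]
    simp

theorem NatUniform.add {K : ℕ} {d : ℝ} (h : NatUniform K d) (i : ℕ) :
    NatUniform (K + i) (1 - (1 - d) / 2 ^ i) := by
  induction i with
  | zero => simpa using h
  | succ i ih =>
    have := ih.succ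
    rw [← add_assoc]
    convert this using 1
    rw [pow_succ]
    field_simp
    ring

/-- A family of singletons. -/
theorem dens_singletons {V : Type} (P T : Finset V) (h : P ⊆ T) (L : Set (Finset V))
    (hL : ∀ f, f ∈ L ↔ ∃ v ∈ P, f = {v}) : dens L T = (1 / 2) ^ P.card := by
  classical
  rw [dens_eq]
  have : T.powerset.filter (fun X => ∀ e ∈ L, ¬ e ⊆ X) = (T \ P).powerset := by
    ext X
    simp only [Finset.mem_filter, Finset.mem_powerset]
    constructor
    · rintro ⟨hX, h⟩ v hv
      rw [Finset.mem_sdiff]
      refine ⟨hX hv, fun hvP => ?_⟩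
      exact h {v} ((hL _).2 ⟨v, hvP, rfl⟩) (Finset.singleton_subset_iff.2 hv)
    · intro hX
      refine ⟨hX.trans Finset.sdiff_subset, ?_⟩
      intro f hf hfX
      obtain ⟨v, hv, rfl⟩ := (hL f).1 hf
      exact (Finset.mem_sdiff.1 (hX (hfX (Finset.mem_singleton_self v)))).2 hv
  rw [this, Finset.card_powerset, Finset.card_sdiff_of_subset h]
  have hle := Finset.card_le_card h
  push_cast
  rw [div_eq_iff (by positivity), one_div, inv_pow, eq_comm, inv_mul_eq_iff_eq_mul₀ (by positivity),
    ← pow_add]
  congr 1
  omega

/-- The edge set of the construction. -/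
def consE (k r : ℕ) (n : Finset ℕ → ℕ) : Set (Finset ℕ) :=
  {e | (e ⊆ Finset.range r ∧ e.card = k + 1) ∨
    ∃ S ⊆ Finset.range r, S.card = k ∧ ∃ i < n S, e = insert (r + i) S}

theorem consE_card (k r : ℕ) (n : Finset ℕ → ℕ) (e : Finset ℕ) (he : e ∈ consE k r n) :
    e.card = k + 1 := by
  rcases he with ⟨_, h⟩ | ⟨S, hS, hc, i, _, rfl⟩
  · exact h
  · rw [Finset.card_insert_of_notMem, hc]
    intro h
    have := hS h
    rw [Finset.mem_range] at this
    omega

theorem cons_dens (k r : ℕ) (n : Finset ℕ → ℕ) (N : ℕ)
    (hN : ∀ S ∈ Finset.powersetCard k (Finset.range r), n S ≤ N) :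
    dens (consE k r n) (Finset.range (r + N)) =
      (((∑ i ∈ Finset.range k, r.choose i : ℕ) : ℝ) +
        ∑ S ∈ Finset.powersetCard k (Finset.range r), (1 / 2 : ℝ) ^ n S) / 2 ^ r := by
  classical
  have hsub : Finset.range r ⊆ Finset.range (r + N) := by
    intro v hv
    rw [Finset.mem_range] at hv ⊢
    omega
  rw [dens_decomp _ (Finset.range r) _ hsub, Finset.card_range]
  congr 1
  have hval : ∀ A ∈ (Finset.range r).powerset,
      dens (lnk (consE k r n) (Finset.range r) A) (Finset.range (r + N) \ Finset.range r) =
        (if A.card < k then 1 else 0) + (if A.card = k then (1 / 2 : ℝ) ^ n A else 0) := by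
    intro A hA
    rw [Finset.mem_powerset] at hA
    rcases lt_trichotomy A.card k with h | h | h
    · rw [if_pos h, if_neg h.ne, add_zero]
      have hempty : ∀ f, f ∉ lnk (consE k r n) (Finset.range r) A := by
        rintro f ⟨e, he, heA, _⟩
        have hc := Finset.card_le_card heA
        rcases he with ⟨h1, h2⟩ | ⟨S, hS, hc', i, _, rfl⟩
        · rw [Finset.inter_eq_left.2 h1] at hc
          omega
        · have : S ⊆ insert (r + i) S ∩ Finset.range r :=
            Finset.subset_inter (Finset.subset_insert _ _) hS
          have := Finset.card_le_card this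
          omega
      rw [dens_ignore _ (Finset.empty_subset _) (fun f hf => absurd hf (hempty f)),
        dens_on_empty _ (hempty _)]
    · rw [if_neg (by omega), if_pos h, zero_add]
      have hAmem : A ∈ Finset.powersetCard k (Finset.range r) :=
        Finset.mem_powersetCard.2 ⟨hA, h⟩
      have hnA := hN A hAmem
      have := dens_singletons (Finset.Ico r (r + n A)) (Finset.range (r + N) \ Finset.range r)
        (by
          intro v hv
          rw [Finset.mem_Ico] at hv
          rw [Finset.mem_sdiff, Finset.mem_range, Finset.mem_range]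
          omega)
        (lnk (consE k r n) (Finset.range r) A) (by
          intro f
          constructor
          · rintro ⟨e, he, heA, hf⟩
            have hc := Finset.card_le_card heA
            rcases he with ⟨h1, h2⟩ | ⟨S, hS, hc', i, hi, rfl⟩
            · rw [Finset.inter_eq_left.2 h1] at hc
              omega
            · have h3 : S ⊆ insert (r + i) S ∩ Finset.range r :=
                Finset.subset_inter (Finset.subset_insert _ _) hS
              have h4 : S = A := Finset.eq_of_subset_of_card_le (h3.trans heA) (by omega)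
              subst h4
              refine ⟨r + i, by rw [Finset.mem_Ico]; omega, ?_⟩
              rw [hf]
              ext v
              simp only [Finset.mem_sdiff, Finset.mem_insert, Finset.mem_singleton,
                Finset.mem_range]
              constructor
              · rintro ⟨h5 | h5, h6⟩
                · exact h5
                · have := Finset.mem_range.1 (hS h5)
                  omega
              · rintro rfl
                exact ⟨Or.inl rfl, by omega⟩
          · rintro ⟨v, hv, rfl⟩
            rw [Finset.mem_Ico] at hv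
            refine ⟨insert v A, Or.inr ⟨A, hA, h, v - r, by omega, ?_⟩, ?_, ?_⟩
            · congr 1; omega
            · intro u hu
              rw [Finset.mem_inter, Finset.mem_insert, Finset.mem_range] at hu
              rcases hu.1 with h5 | h5
              · omega
              · exact h5
            · ext u
              simp only [Finset.mem_sdiff, Finset.mem_insert, Finset.mem_singleton,
                Finset.mem_range]
              constructor
              · rintro rfl
                exact ⟨Or.inl rfl, by omega⟩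
              · rintro ⟨h5 | h5, h6⟩
                · exact h5
                · have := Finset.mem_range.1 (hA h5)
                  omega)
      rw [this, Nat.card_Ico]
      congr 1
      omega
    · rw [if_neg (by omega), if_neg (by omega), add_zero]
      obtain ⟨e, he, hc⟩ := Finset.exists_subset_card_eq (s := A) (n := k + 1) (by omega)
      exact dens_lnk_zero _ _ _ _ hA ⟨e, Or.inl ⟨he.trans hA, hc⟩, he⟩
  rw [Finset.sum_congr rfl hval, Finset.sum_add_distrib]
  congr 1
  · rw [← Finset.sum_filter, Finset.sum_const, nsmul_eq_mul, mul_one]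
    congr 1
    rw [Finset.card_eq_sum_card_fiberwise (f := Finset.card) (t := Finset.range k)]
    · refine Finset.sum_congr rfl fun i hi => ?_
      rw [Finset.mem_range] at hi
      have h5 : ((Finset.range r).powerset.filter (fun A => A.card < k)).filter
          (fun A => A.card = i) = Finset.powersetCard i (Finset.range r) := by
        ext A
        simp only [Finset.mem_filter, Finset.mem_powerset, Finset.mem_powersetCard]
        constructor
        · rintro ⟨⟨h1, _⟩, h3⟩; exact ⟨h1, h3⟩
        · rintro ⟨h1, h3⟩; exact ⟨⟨h1, by omega⟩, h3⟩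
      rw [h5, Finset.card_powersetCard, Finset.card_range]
    · intro A hA
      simp only [Finset.coe_filter] at hA
      simp only [Finset.coe_range, Set.mem_Iio]
      exact hA.2
  · rw [← Finset.sum_filter]
    refine Finset.sum_congr ?_ fun _ _ => rfl
    ext A
    simp only [Finset.mem_filter, Finset.mem_powerset, Finset.mem_powersetCard]

theorem cons_uniform (k r : ℕ) (n : Finset ℕ → ℕ) :
    NatUniform (k + 1) ((((∑ i ∈ Finset.range k, r.choose i : ℕ) : ℝ) +
        ∑ S ∈ Finset.powersetCard k (Finset.range r), (1 / 2 : ℝ) ^ n S) / 2 ^ r) := by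
  refine ⟨consE k r n,
    Finset.range (r + ∑ S ∈ Finset.powersetCard k (Finset.range r), n S), consE_card k r n, ?_⟩
  exact cons_dens k r n _ fun S hS => Finset.single_le_sum (f := n) (fun _ _ => Nat.zero_le _) hS

/-- `x` is a sum of `t` terms from `1, 1/2, 1/4, …`. -/
def IsSum (t : ℕ) (x : ℝ) : Prop := ∃ f : Fin t → ℕ, x = ∑ i, (1 / 2 : ℝ) ^ f i

theorem isSum_zero : IsSum 0 0 := ⟨fun _ => 0, by simp⟩

theorem IsSum.add {t : ℕ} {x : ℝ} (h : IsSum t x) (a : ℕ) :
    IsSum (t + 1) ((1 / 2) ^ a + x) := by
  obtain ⟨f, rfl⟩ := h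
  exact ⟨Fin.cons a f, by rw [Fin.sum_univ_succ]; simp⟩

theorem IsSum.split {t : ℕ} {x : ℝ} (h : IsSum (t + 1) x) : IsSum (t + 2) x := by
  obtain ⟨f, rfl⟩ := h
  refine ⟨Fin.cons (f 0 + 1) (Fin.cons (f 0 + 1) (fun i => f i.succ)), ?_⟩
  rw [Fin.sum_univ_succ, Fin.sum_univ_succ, Fin.sum_univ_succ]
  simp only [Fin.cons_zero, Fin.cons_succ, pow_succ]
  ring

theorem IsSum.splits {t : ℕ} {x : ℝ} (h : IsSum t x) (ht : 1 ≤ t) (M : ℕ) (hM : t ≤ M) :
    IsSum M x := by
  induction M, hM using Nat.le_induction with
  | base => exact h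
  | succ n hn ih =>
    obtain ⟨m, rfl⟩ : ∃ m, n = m + 1 := ⟨n - 1, by omega⟩
    exact ih.split

/-- The criterion. -/
theorem criterion (k r t : ℕ) (x : ℝ) (h : IsSum t x) (ht : 1 ≤ t) (htr : t ≤ r.choose k) :
    NatUniform (k + 1) ((((∑ i ∈ Finset.range k, r.choose i : ℕ) : ℝ) + x) / 2 ^ r) := by
  classical
  obtain ⟨f, rfl⟩ := h.splits ht _ htr
  have hcard : (Finset.powersetCard k (Finset.range r)).card = r.choose k := by
    rw [Finset.card_powersetCard, Finset.card_range]
  let e := Finset.equivFinOfCardEq hcard
  have := cons_uniform k r (fun S => if h : S ∈ Finset.powersetCard k (Finset.range r) then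
    f (e ⟨S, h⟩) else 0)
  convert this using 3
  conv_rhs => rw [← Finset.sum_attach]
  rw [← Equiv.sum_comp e, ← Finset.univ_eq_attach]
  refine Finset.sum_congr rfl fun S _ => ?_
  rw [dif_pos S.2]

end Pool.Agent.UD
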