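import Mathlib

/-!
Independence densities of hypergraphs.  A hypergraph on `V` is given by its set `E` of
edges, a set of finite subsets of `V`.  `dens E S` is the probability that a uniformly random
subset of the finite set `S` contains no edge, and `IsDensity E d` says that `d` is the limit of
`dens E (S n)` along every increasing exhaustion of `V` by finite sets.
-/

open Finset Filter Topology

namespace Pool.Agent.UD

/-- The independence density of the hypergraph induced by the edge set `E` on the finite set `S`
of vertices: the number of subsets of `S` containing no edge, divided by `2 ^ |S|`. -/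
noncomputable def dens {V : Type} (E : Set (Finset V)) (S : Finset V) : ℝ :=
  (Set.ncard {X : Finset V | X ⊆ S ∧ ∀ e ∈ E, ¬ e ⊆ X} : ℝ) / 2 ^ S.card

/-- `d` is the independence density of the hypergraph `(V, E)`: along every chain of finite
vertex sets exhausting `V`, the densities of the induced hypergraphs tend to `d`. -/
def IsDensity {V : Type} (E : Set (Finset V)) (d : ℝ) : Prop :=
  ∀ S : ℕ → Finset V, Monotone S → (∀ v, ∃ n, v ∈ S n) →
    Tendsto (fun n => dens E (S n)) atTop (𝓝 d)

/-- `d` is the independence density of a finite `K`-uniform hypergraph. -/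
def FinUniform (K : ℕ) (d : ℝ) : Prop :=
  ∃ (n : ℕ) (F : Set (Finset (Fin n))), (∀ e ∈ F, e.card = K) ∧ dens F Finset.univ = d

open Classical in
/-- `dens` through filters. -/
theorem dens_eq {V : Type} (E : Set (Finset V)) (S : Finset V) :
    dens E S = ((S.powerset.filter (fun X => ∀ e ∈ E, ¬ e ⊆ X)).card : ℝ) / 2 ^ S.card := by
  unfold dens
  congr 2
  rw [← Set.ncard_coe_finset]
  congr 1
  ext X
  simp

/-- The link of `A ⊆ S0`: the traces outside `S0` of the edges whose part in `S0` lies in `A`. -/
def lnk {V : Type} [DecidableEq V] (E : Set (Finset V)) (S0 A : Finset V) : Set (Finset V) :=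
  {f | ∃ e ∈ E, e ∩ S0 ⊆ A ∧ f = e \ S0}

theorem dens_nonneg {V : Type} (E : Set (Finset V)) (S : Finset V) : 0 ≤ dens E S := by
  unfold dens; positivity

theorem dens_le_one {V : Type} (E : Set (Finset V)) (S : Finset V) : dens E S ≤ 1 := by
  classical
  rw [dens_eq, div_le_one (by positivity)]
  have := Finset.card_filter_le S.powerset (fun X => ∀ e ∈ E, ¬ e ⊆ X)
  rw [Finset.card_powerset] at this
  exact_mod_cast this

theorem dens_empty_mem {V : Type} (E : Set (Finset V)) (h : ∅ ∈ E) (S : Finset V) :
    dens E S = 0 := by
  classical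
  rw [dens_eq, div_eq_zero_iff]
  left
  rw [Nat.cast_eq_zero, Finset.card_eq_zero, Finset.filter_eq_empty_iff]
  intro X _ hX
  exact hX ∅ h (Finset.empty_subset _)

/-- Decomposition of the density along a finite set `S0`. -/
theorem dens_decomp {V : Type} [DecidableEq V] (E : Set (Finset V)) (S0 T : Finset V)
    (hST : S0 ⊆ T) :
    dens E T = (∑ A ∈ S0.powerset, dens (lnk E S0 A) (T \ S0)) / 2 ^ S0.card := by
  classical
  have hcard : T.card = S0.card + (T \ S0).card := by
    rw [Finset.card_sdiff_of_subset hST]
    have := Finset.card_le_card hST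
    omega
  have key : (T.powerset.filter (fun X => ∀ e ∈ E, ¬ e ⊆ X)).card =
      ∑ A ∈ S0.powerset, ((T \ S0).powerset.filter
        (fun X => ∀ e ∈ lnk E S0 A, ¬ e ⊆ X)).card := by
    rw [Finset.card_eq_sum_card_fiberwise (f := fun X => X ∩ S0) (t := S0.powerset)]
    · refine Finset.sum_congr rfl fun A hA => ?_
      rw [Finset.mem_powerset] at hA
      refine Finset.card_bij' (fun X _ => X \ S0) (fun Y _ => Y ∪ A) ?_ ?_ ?_ ?_
      · intro X hX
        simp only [Finset.mem_filter, Finset.mem_powerset] at hX ⊢
        obtain ⟨⟨hXT, hX⟩, hXA⟩ := hX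
        refine ⟨Finset.sdiff_subset_sdiff hXT (le_refl _), ?_⟩
        rintro f ⟨e, he, heA, rfl⟩ hf
        apply hX e he
        intro v hv
        by_cases hv0 : v ∈ S0
        · have : v ∈ A := heA (Finset.mem_inter.2 ⟨hv, hv0⟩)
          rw [← hXA] at this
          exact (Finset.mem_inter.1 this).1
        · exact (Finset.mem_sdiff.1 (hf (Finset.mem_sdiff.2 ⟨hv, hv0⟩))).1
      · intro Y hY
        simp only [Finset.mem_filter, Finset.mem_powerset] at hY ⊢
        obtain ⟨hYT, hY⟩ := hY
        have hYd : ∀ v ∈ Y, v ∉ S0 := fun v hv => (Finset.mem_sdiff.1 (hYT hv)).2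
        refine ⟨⟨Finset.union_subset (hYT.trans Finset.sdiff_subset) (hA.trans hST), ?_⟩, ?_⟩
        · intro e he heX
          refine hY (e \ S0) ⟨e, he, ?_, rfl⟩ ?_
          · intro v hv
            rw [Finset.mem_inter] at hv
            rcases Finset.mem_union.1 (heX hv.1) with h | h
            · exact absurd hv.2 (hYd v h)
            · exact h
          · intro v hv
            rw [Finset.mem_sdiff] at hv
            rcases Finset.mem_union.1 (heX hv.1) with h | h
            · exact h
            · exact absurd (hA h) hv.2
        · ext v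
          simp only [Finset.mem_inter, Finset.mem_union]
          constructor
          · rintro ⟨h | h, h0⟩
            · exact absurd h0 (hYd v h)
            · exact h
          · intro h
            exact ⟨Or.inr h, hA h⟩
      · intro X hX
        simp only [Finset.mem_filter, Finset.mem_powerset] at hX
        simp only [← hX.2]
        exact Finset.sdiff_union_inter X S0
      · intro Y hY
        simp only [Finset.mem_filter, Finset.mem_powerset] at hY
        ext v
        simp only [Finset.mem_sdiff, Finset.mem_union]
        constructor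
        · rintro ⟨h | h, h0⟩
          · exact h
          · exact absurd (hA h) h0
        · intro h
          exact ⟨Or.inl h, (Finset.mem_sdiff.1 (hY.1 h)).2⟩
    · intro X _
      simp only [Finset.coe_powerset, Set.mem_preimage, Set.mem_powerset_iff, Finset.coe_subset]
      exact Finset.inter_subset_right
  rw [dens_eq, key, hcard, pow_add]
  push_cast
  rw [Finset.sum_div, Finset.sum_div]
  refine Finset.sum_congr rfl fun A _ => ?_
  rw [dens_eq]
  field_simp

/-- If `A` contains an edge, its link has density zero. -/
theorem dens_lnk_zero {V : Type} [DecidableEq V] (E : Set (Finset V)) (S0 A T : Finset V)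
    (hA : A ⊆ S0) (h : ∃ e ∈ E, e ⊆ A) : dens (lnk E S0 A) T = 0 := by
  obtain ⟨e, he, heA⟩ := h
  apply dens_empty_mem
  refine ⟨e, he, Finset.inter_subset_left.trans heA, ?_⟩
  symm
  rw [Finset.sdiff_eq_empty_iff_subset]
  exact heA.trans hA

/-- The density as an average of indicators. -/
theorem dens_eq_sum {V : Type} [DecidableEq V] (E : Set (Finset V)) (S : Finset V) :
    dens E S = (∑ A ∈ S.powerset, dens (lnk E S A) ∅) / 2 ^ S.card := by
  have := dens_decomp E S S (le_refl _)
  rwa [Finset.sdiff_self] at this

theorem dens_on_empty {V : Type} (E : Set (Finset V)) (h : ∅ ∉ E) : dens E ∅ = 1 := by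
  classical
  rw [dens_eq]
  have : ((∅ : Finset V).powerset.filter (fun X => ∀ e ∈ E, ¬ e ⊆ X)) = {∅} := by
    ext X
    simp only [Finset.powerset_empty, Finset.mem_filter, Finset.mem_singleton]
    constructor
    · exact fun h => h.1
    · rintro rfl
      refine ⟨rfl, ?_⟩
      intro e he hs
      rw [Finset.subset_empty] at hs
      exact h (hs ▸ he)
  rw [this]
  simp

theorem empty_mem_lnk {V : Type} [DecidableEq V] (E : Set (Finset V)) (S A : Finset V)
    (h : ∅ ∈ lnk E S A) : ∃ e ∈ E, e ⊆ A := by
  obtain ⟨e, he, heA, h0⟩ := h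
  refine ⟨e, he, ?_⟩
  have : e ⊆ S := by
    rw [← Finset.sdiff_eq_empty_iff_subset]; exact h0.symm
  rw [Finset.inter_eq_left.2 this] at heA
  exact heA

/-- Monotonicity: larger vertex sets have smaller density. -/
theorem dens_anti {V : Type} (E : Set (Finset V)) {S T : Finset V} (h : S ⊆ T) :
    dens E T ≤ dens E S := by
  classical
  rw [dens_decomp E S T h, dens_eq_sum E S]
  refine div_le_div_of_nonneg_right ?_ (by positivity)
  refine Finset.sum_le_sum fun A hA => ?_
  rw [Finset.mem_powerset] at hA
  by_cases hA' : ∃ e ∈ E, e ⊆ A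
  · rw [dens_lnk_zero E S A _ hA hA']; exact dens_nonneg _ _
  · rw [dens_on_empty]
    · exact dens_le_one _ _
    · exact fun h' => hA' (empty_mem_lnk E S A h')

/-- Vertices met by no edge do not matter. -/
theorem dens_ignore {V : Type} [DecidableEq V] (E : Set (Finset V)) {S T : Finset V} (h : S ⊆ T)
    (hE : ∀ e ∈ E, e ⊆ T → e ⊆ S) : dens E T = dens E S := by
  rw [dens_decomp E S T h, dens_eq_sum E S]
  congr 1
  refine Finset.sum_congr rfl fun A hA => ?_
  rw [Finset.mem_powerset] at hA
  by_cases hA' : ∃ e ∈ E, e ⊆ A
  · rw [dens_lnk_zero E S A _ hA hA', dens_lnk_zero E S A _ hA hA']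
  · rw [dens_on_empty _ (fun h' => hA' (empty_mem_lnk E S A h'))]
    classical
    rw [dens_eq, div_eq_one_iff_eq (by positivity)]
    rw [Finset.filter_true_of_mem, Finset.card_powerset]
    · push_cast; rfl
    · intro X hX f hf hfX
      rw [Finset.mem_powerset] at hX
      obtain ⟨e, he, heA, rfl⟩ := hf
      apply hA'
      refine ⟨e, he, ?_⟩
      have heT : e ⊆ T := by
        intro v hv
        by_cases hvS : v ∈ S
        · exact h hvS
        · exact (Finset.mem_sdiff.1 (hX (hfX (Finset.mem_sdiff.2 ⟨hv, hvS⟩)))).1
      have heS := hE e he heT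
      rw [Finset.inter_eq_left.2 heS] at heA
      exact heA

end Pool.Agent.UD
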