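import Pool.Agent.MP_90b0e7_co.UdDefs

/-! Densities of hypergraphs with bounded edges are dyadic rationals. -/

open Finset Filter Topology

namespace Pool.Agent.UD

/-- The infimum of the densities of the finite induced parts. -/
noncomputable def idens {V : Type} (E : Set (Finset V)) : ℝ := ⨅ S : Finset V, dens E S

theorem dens_bdd {V : Type} (E : Set (Finset V)) :
    BddBelow (Set.range (fun S : Finset V => dens E S)) :=
  ⟨0, by rintro _ ⟨S, rfl⟩; exact dens_nonneg _ _⟩

theorem idens_le {V : Type} (E : Set (Finset V)) (S : Finset V) : idens E ≤ dens E S :=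
  ciInf_le (dens_bdd E) S

theorem idens_nonneg {V : Type} (E : Set (Finset V)) : 0 ≤ idens E :=
  le_ciInf fun _ => dens_nonneg _ _

theorem dens_antitone {V : Type} (E : Set (Finset V)) : Antitone (fun S : Finset V => dens E S) :=
  fun _ _ h => dens_anti E h

theorem tendsto_idens {V : Type} [DecidableEq V] (E : Set (Finset V)) :
    Tendsto (fun S : Finset V => dens E S) atTop (𝓝 (idens E)) :=
  tendsto_atTop_ciInf (dens_antitone E) (dens_bdd E)

/-- Along every exhausting chain the limit is `idens`. -/
theorem isDensity_idens {V : Type} (E : Set (Finset V)) : IsDensity E (idens E) := by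
  classical
  intro S hS hex
  refine (tendsto_idens E).comp ?_
  rw [tendsto_atTop]
  intro T
  have hT : ∃ n, T ⊆ S n := by
    induction T using Finset.induction_on with
    | empty => exact ⟨0, Finset.empty_subset _⟩
    | insert a s _ ih =>
      obtain ⟨n, hn⟩ := ih
      obtain ⟨m, hm⟩ := hex a
      refine ⟨max n m, ?_⟩
      intro v hv
      rcases Finset.mem_insert.1 hv with rfl | hv
      · exact hS (le_max_right _ _) hm
      · exact hS (le_max_left _ _) (hn hv)
  obtain ⟨n, hn⟩ := hT
  filter_upwards [eventually_ge_atTop n] with k hk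
  exact hn.trans (hS hk)

/-- A countable vertex set has an exhausting chain. -/
theorem exists_chain (V : Type) [Countable V] :
    ∃ S : ℕ → Finset V, Monotone S ∧ ∀ v, ∃ n, v ∈ S n := by
  classical
  obtain ⟨f, hf⟩ := exists_injective_nat V
  have hfin : ∀ n : ℕ, (f ⁻¹' (Set.Iic n)).Finite := fun n =>
    Set.Finite.preimage hf.injOn (Set.finite_Iic n)
  refine ⟨fun n => (hfin n).toFinset, ?_, ?_⟩
  · intro a b hab v hv
    rw [Set.Finite.mem_toFinset] at hv ⊢
    exact le_trans (show f v ≤ a from hv) hab
  · intro v
    refine ⟨f v, ?_⟩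
    rw [Set.Finite.mem_toFinset]
    exact le_refl (f v)

theorem isDensity_unique {V : Type} [Countable V] (E : Set (Finset V)) {d : ℝ}
    (h : IsDensity E d) : d = idens E := by
  obtain ⟨S, hS, hex⟩ := exists_chain V
  exact tendsto_nhds_unique (h S hS hex) (isDensity_idens E S hS hex)

/-- If an edge avoids `S`, adding it lowers the density by a constant factor. -/
theorem dens_drop {V : Type} [DecidableEq V] (E : Set (Finset V)) (S e : Finset V) (he : e ∈ E)
    (hd : Disjoint e S) (k : ℕ) (hk : e.card ≤ k) :
    dens E (S ∪ e) ≤ (1 - 1 / 2 ^ k) * dens E S := by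
  classical
  rw [dens_decomp E S (S ∪ e) Finset.subset_union_left, dens_eq_sum E S, ← mul_div_assoc]
  refine div_le_div_of_nonneg_right ?_ (by positivity)
  rw [Finset.mul_sum]
  refine Finset.sum_le_sum fun A hA => ?_
  rw [Finset.mem_powerset] at hA
  by_cases hA' : ∃ e ∈ E, e ⊆ A
  · rw [dens_lnk_zero E S A _ hA hA', dens_lnk_zero E S A _ hA hA', mul_zero]
  · rw [dens_on_empty (lnk E S A) (fun h' => hA' (empty_mem_lnk E S A h')), mul_one]
    have h1 : (S ∪ e) \ S = e := by
      rw [Finset.union_sdiff_left]
      exact Finset.sdiff_eq_self_of_disjoint hd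
    rw [h1, dens_eq]
    have hmem : e ∈ lnk E S A := by
      refine ⟨e, he, ?_, ?_⟩
      · rw [Finset.disjoint_iff_inter_eq_empty.1 hd]; exact Finset.empty_subset _
      · exact (Finset.sdiff_eq_self_of_disjoint hd).symm
    have hlt : (e.powerset.filter (fun X => ∀ f ∈ lnk E S A, ¬ f ⊆ X)).card + 1 ≤ 2 ^ e.card := by
      rw [← Finset.card_powerset e, Nat.add_one_le_iff]
      apply Finset.card_lt_card
      rw [Finset.filter_ssubset]
      exact ⟨e, Finset.mem_powerset_self e, fun h => h e hmem (le_refl _)⟩
    have hlt' : ((e.powerset.filter (fun X => ∀ f ∈ lnk E S A, ¬ f ⊆ X)).card : ℝ) + 1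
        ≤ 2 ^ e.card := by exact_mod_cast hlt
    rw [div_le_iff₀ (by positivity)]
    have h2 : (1 : ℝ) / 2 ^ k ≤ 1 / 2 ^ e.card := by
      apply one_div_le_one_div_of_le (by positivity)
      exact pow_le_pow_right₀ (by norm_num) hk
    have h3 : (1 - 1 / 2 ^ e.card : ℝ) * 2 ^ e.card = 2 ^ e.card - 1 := by
      field_simp
    nlinarith [pow_pos (show (0 : ℝ) < 2 by norm_num) e.card]

/-- Densities of hypergraphs with bounded edges are dyadic. -/
theorem idens_dyadic (k : ℕ) : ∀ {V : Type} (E : Set (Finset V)), (∀ e ∈ E, e.card ≤ k) →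
    ∃ c m : ℕ, idens E = c / 2 ^ m := by
  classical
  induction k with
  | zero =>
    intro V E hE
    have hE' : ∀ e ∈ E, e = ∅ := fun e he => Finset.card_eq_zero.1 (Nat.le_zero.1 (hE e he))
    by_cases h : ∅ ∈ E
    · refine ⟨0, 0, ?_⟩
      have : ∀ S, dens E S = 0 := dens_empty_mem E h
      unfold idens
      simp [this]
    · refine ⟨1, 0, ?_⟩
      have : ∀ S, dens E S = 1 := by
        intro S
        rw [dens_ignore E (Finset.empty_subset S) (fun e he _ => (hE' e he).le),
          dens_on_empty E h]
      unfold idens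
      simp [this]
  | succ k ih =>
    intro V E hE
    by_cases hit : ∃ S0 : Finset V, ∀ e ∈ E, (e ∩ S0).Nonempty
    · obtain ⟨S0, hS0⟩ := hit
      have hl : ∀ A : Finset V, ∃ c m : ℕ, idens (lnk E S0 A) = c / 2 ^ m := by
        intro A
        apply ih
        rintro f ⟨e, he, _, rfl⟩
        have h1 := hE e he
        have h2 := Finset.card_pos.2 (hS0 e he)
        have h3 := Finset.card_sdiff_add_card_inter e S0
        omega
      have hlim : Tendsto (fun T : Finset V => dens E T) atTop
          (𝓝 ((∑ A ∈ S0.powerset, idens (lnk E S0 A)) / 2 ^ S0.card)) := by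
        have h1 : Tendsto (fun T : Finset V =>
            (∑ A ∈ S0.powerset, dens (lnk E S0 A) T) / 2 ^ S0.card) atTop
            (𝓝 ((∑ A ∈ S0.powerset, idens (lnk E S0 A)) / 2 ^ S0.card)) := by
          apply Tendsto.div_const
          exact tendsto_finsetSum _ fun A _ => tendsto_idens _
        refine h1.congr' ?_
        filter_upwards [eventually_ge_atTop S0] with T hT
        rw [dens_decomp E S0 T hT]
        congr 1
        refine Finset.sum_congr rfl fun A _ => ?_
        refine dens_ignore _ Finset.sdiff_subset ?_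
        rintro f ⟨e, he, _, rfl⟩ hfT v hv
        rw [Finset.mem_sdiff]
        exact ⟨hfT hv, (Finset.mem_sdiff.1 hv).2⟩
      rw [tendsto_nhds_unique (tendsto_idens E) hlim]
      choose c m hcm using hl
      set M := ∑ A ∈ S0.powerset, m A with hM
      refine ⟨∑ A ∈ S0.powerset, c A * 2 ^ (M - m A), M + S0.card, ?_⟩
      rw [pow_add, ← div_div]
      congr 1
      push_cast
      rw [Finset.sum_div]
      refine Finset.sum_congr rfl fun A hA => ?_
      rw [hcm A]
      have hle : m A ≤ M := Finset.single_le_sum (f := m) (fun _ _ => Nat.zero_le _) hA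
      rw [div_eq_div_iff (by positivity) (by positivity), mul_assoc, ← pow_add,
        Nat.sub_add_cancel hle]
    · refine ⟨0, 0, ?_⟩
      push Not at hit
      have hq : idens E ≤ (1 - 1 / 2 ^ (k + 1)) * idens E := by
        have hqpos : (0 : ℝ) < 1 - 1 / 2 ^ (k + 1) := by
          have : (1 : ℝ) / 2 ^ (k + 1) < 1 := by
            rw [div_lt_one (by positivity)]
            exact one_lt_pow₀ (by norm_num) (by omega)
          linarith
        have h1 : idens E / (1 - 1 / 2 ^ (k + 1)) ≤ idens E := by
          refine le_ciInf fun S => ?_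
          rw [div_le_iff₀ hqpos, mul_comm]
          obtain ⟨e, he, hes⟩ := hit S
          exact (idens_le E (S ∪ e)).trans (dens_drop E S e he
            (Finset.disjoint_iff_inter_eq_empty.2 hes) (k + 1) (hE e he))
        rw [div_le_iff₀ hqpos] at h1
        linarith [h1]
      have h0 := idens_nonneg E
      have hpos : (0 : ℝ) < 1 / 2 ^ (k + 1) := by positivity
      have : idens E = 0 := by nlinarith
      rw [this]; simp

end Pool.Agent.UD
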