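import Pool.Agent.MP_90b0e7_co.UdCons

/-! Arithmetic: which dyadic rationals the construction reaches. -/

open Finset Filter Topology

namespace Pool.Agent.UD

/-- The number of ones in the binary expansion. -/
def ones (n : ℕ) : ℕ := (Nat.digits 2 n).sum

theorem ones_step (n : ℕ) : ones n = n % 2 + ones (n / 2) := by
  unfold ones
  rcases Nat.eq_zero_or_pos n with rfl | h
  · simp
  · rw [Nat.digits_def' (by norm_num) h, List.sum_cons]

theorem ones_zero : ones 0 = 0 := by simp [ones]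

theorem ones_mod_le (a : ℕ) : ∀ n : ℕ, ones (n % 2 ^ a) ≤ ones n := by
  induction a with
  | zero => intro n; simp [Nat.mod_one, ones_zero]
  | succ a ih =>
    intro n
    rw [ones_step (n % 2 ^ (a + 1)), ones_step n]
    have h1 : n % 2 ^ (a + 1) % 2 = n % 2 := by
      rw [pow_succ']
      exact Nat.mod_mul_right_mod _ _ _
    have h2 : n % 2 ^ (a + 1) / 2 = n / 2 % 2 ^ a := by
      rw [pow_succ', Nat.mod_mul_right_div_self]
    rw [h1, h2]
    exact Nat.add_le_add_left (ih _) _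

theorem ones_two_mul (n : ℕ) : ones (2 * n) = ones n := by
  rw [ones_step]
  have h1 : 2 * n % 2 = 0 := by omega
  have h2 : 2 * n / 2 = n := by omega
  rw [h1, h2, zero_add]

theorem ones_pow_mul (r n : ℕ) : ones (2 ^ r * n) = ones n := by
  induction r with
  | zero => simp
  | succ r ih => rw [pow_succ', mul_assoc, ones_two_mul, ih]

theorem isSum_ones (m : ℕ) : ∀ s : ℕ, s < 2 ^ m → IsSum (ones s) ((s : ℝ) / 2 ^ m) := by
  induction m with
  | zero =>
    intro s hs
    have : s = 0 := by simpa using hs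
    subst this
    simpa [ones_zero] using isSum_zero
  | succ m ih =>
    intro s hs
    have hlt : s / 2 < 2 ^ m := by
      rw [pow_succ] at hs
      omega
    have h := ih (s / 2) hlt
    rw [ones_step]
    have hs2 : s = 2 * (s / 2) + s % 2 := by omega
    rcases Nat.mod_two_eq_zero_or_one s with h0 | h0
    · rw [h0, zero_add]
      convert h using 1
      have : (s : ℝ) = 2 * ((s / 2 : ℕ) : ℝ) := by
        have h3 : s = 2 * (s / 2) := by omega
        exact_mod_cast h3
      rw [this, pow_succ]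
      field_simp
    · rw [h0, add_comm]
      convert h.add (m + 1) using 1
      have : (s : ℝ) = 2 * ((s / 2 : ℕ) : ℝ) + 1 := by
        have h3 : s = 2 * (s / 2) + 1 := by omega
        exact_mod_cast h3
      rw [this, one_div, inv_pow, pow_succ]
      field_simp
      ring

theorem IsSum.add_nat {t : ℕ} {x : ℝ} (h : IsSum t x) (q : ℕ) : IsSum (q + t) (q + x) := by
  induction q with
  | zero => simpa using h
  | succ q ih =>
    have := ih.add 0
    rw [show q + 1 + t = q + t + 1 by ring]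
    convert this using 1
    push_cast
    ring

theorem isSum_gen (c m : ℕ) : IsSum (c / 2 ^ m + ones (c % 2 ^ m)) ((c : ℝ) / 2 ^ m) := by
  have h := (isSum_ones m (c % 2 ^ m) (Nat.mod_lt _ (by positivity))).add_nat (c / 2 ^ m)
  convert h using 1
  have h1 : c = 2 ^ m * (c / 2 ^ m) + c % 2 ^ m := (Nat.div_add_mod _ _).symm
  have h2 : (c : ℝ) = 2 ^ m * ((c / 2 ^ m : ℕ) : ℝ) + ((c % 2 ^ m : ℕ) : ℝ) := by exact_mod_cast h1
  rw [h2]
  field_simp

/-- Partial sums of binomial coefficients. -/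
def B (r k : ℕ) : ℕ := ∑ a ∈ Finset.range k, r.choose a

theorem B_succ (r k : ℕ) : B (r + 1) (k + 1) = B r (k + 1) + B r k := by
  unfold B
  rw [Finset.sum_range_succ', Finset.sum_range_succ' (fun a => r.choose a) k]
  simp only [Nat.choose_succ_succ', Nat.choose_zero_right]
  rw [Finset.sum_add_distrib]
  ring

theorem B_top (r k : ℕ) : B r (k + 1) = B r k + r.choose k := by
  unfold B
  rw [Finset.sum_range_succ]

/-- `2 B(r, k+1) = B(r+1, k+1) + C(r, k)`. -/
theorem B_double (r k : ℕ) : 2 * B r (k + 1) = B (r + 1) (k + 1) + r.choose k := by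
  rw [B_succ]
  have := B_top r k
  omega

theorem B_small (k c m : ℕ) (hc : 0 < c) : ∃ r, B r k * 2 ^ m < 2 ^ r * c := by
  have h1 : Tendsto (fun r : ℕ => (k : ℝ) * 2 ^ m * ((r : ℝ) ^ k / 2 ^ r)) atTop (𝓝 0) := by
    have := (tendsto_pow_const_div_const_pow_of_one_lt k (show (1 : ℝ) < 2 by norm_num)).const_mul
      ((k : ℝ) * 2 ^ m)
    simpa using this
  have h2 := (h1.eventually (gt_mem_nhds (show (0 : ℝ) < 1 by norm_num))).and
    (eventually_ge_atTop 1)
  obtain ⟨r, hr, hr1⟩ := h2.exists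
  refine ⟨r, ?_⟩
  have hB : B r k ≤ k * r ^ k := by
    unfold B
    calc ∑ a ∈ Finset.range k, r.choose a ≤ ∑ a ∈ Finset.range k, r ^ k := by
          refine Finset.sum_le_sum fun a ha => ?_
          rw [Finset.mem_range] at ha
          exact (Nat.choose_le_pow r a).trans (Nat.pow_le_pow_right hr1 ha.le)
      _ = k * r ^ k := by simp
  have h3 : (k : ℝ) * 2 ^ m * (r : ℝ) ^ k < 2 ^ r := by
    rw [← mul_div_assoc, div_lt_one (by positivity)] at hr
    exact hr
  have h4 : k * 2 ^ m * r ^ k < 2 ^ r := by exact_mod_cast h3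
  calc B r k * 2 ^ m ≤ k * r ^ k * 2 ^ m := Nat.mul_le_mul_right _ hB
    _ = k * 2 ^ m * r ^ k := by ring
    _ < 2 ^ r := h4
    _ ≤ 2 ^ r * c := Nat.le_mul_of_pos_right _ hc

/-- The reachable densities, in terms of the number of binary ones after position `r`. -/
theorem reach (k r c m : ℕ) (hk : 1 ≤ k) (hr : 1 ≤ r) (hc : 0 < c)
    (hB : 2 ^ (r - 1) * c ≤ 2 ^ m * B (r - 1) k)
    (ho : ones (c % 2 ^ (m - r)) ≤ (r - 1).choose k) :
    NatUniform (k + 1) ((c : ℝ) / 2 ^ m) := by
  classical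
  obtain ⟨l, rfl⟩ : ∃ l, k = l + 1 := ⟨k - 1, by omega⟩
  have hex := B_small (l + 1) c m hc
  -- the least such index
  obtain ⟨r', hr', hmin⟩ : ∃ r', B r' (l + 1) * 2 ^ m < 2 ^ r' * c ∧
      ∀ s < r', 2 ^ s * c ≤ B s (l + 1) * 2 ^ m :=
    ⟨Nat.find hex, Nat.find_spec hex, fun s hs => not_lt.1 (Nat.find_min hex hs)⟩
  -- failing at `r - 1` gives `r ≤ r'`
  have hfail : ∀ s ≤ r - 1, 2 ^ s * c ≤ B s (l + 1) * 2 ^ m := by
    intro s hs
    induction hs using Nat.decreasingInduction with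
    | self => rw [mul_comm (B _ _)]; exact hB
    | of_succ s hs ih =>
      have h1 := B_double s l
      have h2 : B (s + 1) (l + 1) ≤ 2 * B s (l + 1) := by omega
      have h3 : 2 ^ (s + 1) * c ≤ 2 * B s (l + 1) * 2 ^ m :=
        ih.trans (Nat.mul_le_mul_right _ h2)
      rw [pow_succ'] at h3
      have h4 : 2 * (2 ^ s * c) ≤ 2 * (B s (l + 1) * 2 ^ m) := by
        calc 2 * (2 ^ s * c) = 2 * 2 ^ s * c := by ring
          _ ≤ 2 * B s (l + 1) * 2 ^ m := h3
          _ = 2 * (B s (l + 1) * 2 ^ m) := by ring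
      omega
  have hrr' : r ≤ r' := by
    by_contra hlt
    push Not at hlt
    have := hfail r' (by omega)
    omega
  obtain ⟨p, rfl⟩ : ∃ p, r' = p + 1 := ⟨r' - 1, by omega⟩
  -- the remainder
  obtain ⟨x, hx⟩ : ∃ x, 2 ^ (p + 1) * c = B (p + 1) (l + 1) * 2 ^ m + x :=
    ⟨2 ^ (p + 1) * c - B (p + 1) (l + 1) * 2 ^ m, by omega⟩
  have hxpos : 0 < x := by omega
  have hxle : x ≤ p.choose l * 2 ^ m := by
    have h1 := hmin p (by omega)
    have h2 := B_double p l
    have h3 : 2 ^ (p + 1) * c ≤ (B (p + 1) (l + 1) + p.choose l) * 2 ^ m := by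
      rw [← h2, pow_succ']
      calc 2 * 2 ^ p * c = 2 * (2 ^ p * c) := by ring
        _ ≤ 2 * (B p (l + 1) * 2 ^ m) := Nat.mul_le_mul_left _ h1
        _ = 2 * B p (l + 1) * 2 ^ m := by ring
    rw [add_mul] at h3
    omega
  have hval : (c : ℝ) / 2 ^ m =
      (((∑ i ∈ Finset.range (l + 1), (p + 1).choose i : ℕ) : ℝ) + (x : ℝ) / 2 ^ m) /
        2 ^ (p + 1) := by
    have h1 : (2 : ℝ) ^ (p + 1) * c = (B (p + 1) (l + 1) : ℝ) * 2 ^ m + x := by exact_mod_cast hx
    have h2 : ((∑ i ∈ Finset.range (l + 1), (p + 1).choose i : ℕ) : ℝ) =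
        (B (p + 1) (l + 1) : ℝ) := rfl
    rw [h2]
    field_simp
    linarith
  rw [hval]
  have hsum := isSum_gen x m
  refine criterion (l + 1) (p + 1) _ _ hsum ?_ ?_
  · -- at least one term
    by_contra h0
    have h00 : x / 2 ^ m + ones (x % 2 ^ m) = 0 := Nat.lt_one_iff.1 (not_le.1 h0)
    have h1 : x / 2 ^ m = 0 := (Nat.add_eq_zero_iff.1 h00).1
    have h2 : ones (x % 2 ^ m) = 0 := (Nat.add_eq_zero_iff.1 h00).2
    rw [Nat.div_eq_zero_iff] at h1
    have h3 : x < 2 ^ m := by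
      rcases h1 with h1 | h1
      · exact absurd h1 (by positivity)
      · exact h1
    rw [Nat.mod_eq_of_lt h3] at h2
    have h4 := isSum_ones m x h3
    rw [h2] at h4
    obtain ⟨f, hf⟩ := h4
    simp only [Finset.univ_eq_empty, Finset.sum_empty] at hf
    have h5 : (0 : ℝ) < (x : ℝ) / 2 ^ m := by positivity
    linarith
  · -- at most `C(r', k)` terms
    have h1 : x / 2 ^ m ≤ p.choose l := by
      apply Nat.div_le_of_le_mul
      rw [mul_comm]; exact hxle
    have h2 : x % 2 ^ m = (2 ^ (p + 1) * c) % 2 ^ m := by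
      rw [hx, mul_comm (B _ _), Nat.mul_add_mod]
    have h3 : ones (x % 2 ^ m) ≤ p.choose (l + 1) := by
      rw [h2]
      rcases le_or_gt m (p + 1) with hm | hm
      · obtain ⟨d, hd⟩ : ∃ d, p + 1 = m + d := ⟨p + 1 - m, by omega⟩
        rw [hd, pow_add 2 m d, mul_assoc, Nat.mul_mod_right, ones_zero]
        exact Nat.zero_le _
      · obtain ⟨d, hd⟩ : ∃ d, m = (p + 1) + d := ⟨m - (p + 1), by omega⟩
        rw [hd, pow_add 2 (p + 1) d, Nat.mul_mod_mul_left, ones_pow_mul]
        have hd' : d ≤ m - r := by omega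
        have h4 : c % 2 ^ d = c % 2 ^ (m - r) % 2 ^ d := by
          rw [Nat.mod_mod_of_dvd _ (pow_dvd_pow 2 hd')]
        rw [h4]
        refine (ones_mod_le _ _).trans (ho.trans ?_)
        exact Nat.choose_le_choose _ (by omega)
    have h4 : (p + 1).choose (l + 1) = p.choose l + p.choose (l + 1) := Nat.choose_succ_succ' _ _
    rw [h4]
    exact Nat.add_le_add h1 h3

end Pool.Agent.UD
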