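import Pool.Agent.MP_90b0e7_co.UdArith
import Pool.Agent.MP_90b0e7_co.UdRat

/-! The two criteria and the qualitative statement. -/

open Finset Filter Topology

namespace Pool.Agent.UD

/-- The criterion with `i` further common vertices. -/
theorem reach_add (i k r c m : ℕ) (hk : 1 ≤ k) (hr : 1 ≤ r)
    (hpos : 0 < 1 - 2 ^ i * (1 - (c : ℝ) / 2 ^ m)) (hle : (c : ℝ) / 2 ^ m ≤ 1)
    (hB : 2 ^ (r - 1) * (1 - 2 ^ i * (1 - (c : ℝ) / 2 ^ m)) ≤
      ((∑ a ∈ Finset.range k, (r - 1).choose a : ℕ) : ℝ))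
    (ho : ones (c % 2 ^ (m - (i + r))) ≤ (r - 1).choose k) :
    NatUniform (k + 1 + i) ((c : ℝ) / 2 ^ m) := by
  have hcm : c ≤ 2 ^ m := by
    rw [div_le_one (by positivity)] at hle
    exact_mod_cast hle
  obtain ⟨d, hd⟩ : ∃ d, c + d = 2 ^ m := ⟨2 ^ m - c, by omega⟩
  have hdR : (c : ℝ) + d = 2 ^ m := by exact_mod_cast hd
  have h1 : 1 - (c : ℝ) / 2 ^ m = (d : ℝ) / 2 ^ m := by
    rw [← hdR]
    have : (c : ℝ) + d ≠ 0 := by rw [hdR]; positivity
    field_simp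
    ring
  rw [h1] at hpos hB
  have hlt : 2 ^ i * d < 2 ^ m := by
    have h2 : (2 : ℝ) ^ i * d < 2 ^ m := by
      have h3 : (2 : ℝ) ^ i * (d / 2 ^ m) < 1 := by linarith
      rw [← mul_div_assoc, div_lt_one (by positivity)] at h3
      exact h3
    exact_mod_cast h2
  obtain ⟨c', hc'⟩ : ∃ c', c' + 2 ^ i * d = 2 ^ m := ⟨2 ^ m - 2 ^ i * d, by omega⟩
  have hc'pos : 0 < c' := by omega
  have hc'R : (c' : ℝ) + 2 ^ i * d = 2 ^ m := by exact_mod_cast hc'
  have hval : 1 - 2 ^ i * ((d : ℝ) / 2 ^ m) = (c' : ℝ) / 2 ^ m := by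
    rw [eq_div_iff (by positivity)]
    have : (2 : ℝ) ^ m ≠ 0 := by positivity
    field_simp
    linarith
  rw [hval] at hB
  have hB' : 2 ^ (r - 1) * c' ≤ 2 ^ m * B (r - 1) k := by
    have h2 : (2 : ℝ) ^ (r - 1) * c' ≤ 2 ^ m * (B (r - 1) k : ℝ) := by
      have h3 : ((∑ a ∈ Finset.range k, (r - 1).choose a : ℕ) : ℝ) = (B (r - 1) k : ℝ) := rfl
      rw [h3, ← mul_div_assoc, div_le_iff₀ (by positivity)] at hB
      linarith
    exact_mod_cast h2
  have hmod : ones (c' % 2 ^ (m - r)) ≤ (r - 1).choose k := by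
    have h2 : c' % 2 ^ (m - r) = (2 ^ i * c) % 2 ^ (m - r) := by
      have h3 : c' + 2 ^ i * 2 ^ m = 2 ^ i * c + 2 ^ m := by
        have : 2 ^ i * 2 ^ m = 2 ^ i * c + 2 ^ i * d := by rw [← mul_add, hd]
        omega
      have hdvd : 2 ^ (m - r) ∣ 2 ^ m := pow_dvd_pow 2 (by omega)
      obtain ⟨u, hu⟩ := hdvd
      have h4 : c' % 2 ^ (m - r) = (c' + 2 ^ i * 2 ^ m) % 2 ^ (m - r) := by
        conv_rhs => rw [hu, ← mul_assoc, mul_comm (2 ^ i), mul_assoc]
        rw [Nat.add_mul_mod_self_left]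
      have h5 : (2 ^ i * c) % 2 ^ (m - r) = (2 ^ i * c + 2 ^ m) % 2 ^ (m - r) := by
        conv_rhs => rw [hu]
        rw [Nat.add_mul_mod_self_left]
      rw [h4, h5, h3]
    rw [h2]
    rcases le_or_gt (m - r) i with h | h
    · have h3 : 2 ^ (m - r) ∣ 2 ^ i * c := (pow_dvd_pow 2 h).mul_right c
      rw [Nat.mod_eq_zero_of_dvd h3, ones_zero]
      exact Nat.zero_le _
    · obtain ⟨e, he⟩ : ∃ e, m - r = i + e := ⟨m - r - i, by omega⟩
      rw [he, pow_add, Nat.mul_mod_mul_left, ones_pow_mul]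
      have : e = m - (i + r) := by omega
      rw [this]
      exact ho
  have h := (reach k r c' m hk hr hc'pos hB' hmod).add i
  convert h using 1
  rw [← hval]
  have h6 : (c : ℝ) / 2 ^ m = 1 - (d : ℝ) / 2 ^ m := by linarith
  rw [h6]
  have : (2 : ℝ) ^ i ≠ 0 := by positivity
  field_simp
  ring

theorem choose_mono_half (k k' : ℕ) (h : k ≤ k') (hk : 1 ≤ k) :
    (2 * k - 1).choose k ≤ (2 * k' - 1).choose k' := by
  induction k', h using Nat.le_induction with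
  | base => exact le_refl _
  | succ n hn ih =>
    refine ih.trans ?_
    obtain ⟨l, rfl⟩ : ∃ l, n = l + 1 := ⟨n - 1, by omega⟩
    have h1 : 2 * (l + 1 + 1) - 1 = (2 * l + 2) + 1 := by omega
    have h2 : 2 * (l + 1) - 1 = 2 * l + 1 := by omega
    rw [h1, h2]
    calc (2 * l + 1).choose (l + 1) ≤ (2 * l + 2).choose (l + 1) :=
          Nat.choose_le_choose _ (by omega)
      _ ≤ (2 * l + 2).choose (l + 1) + (2 * l + 2).choose (l + 1 + 1) := Nat.le_add_right _ _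
      _ = (2 * l + 2 + 1).choose (l + 1 + 1) := (Nat.choose_succ_succ' _ _).symm

/-- The uniform bound. -/
theorem reach_unif (j k c m : ℕ) (hk : 1 ≤ k) (h0 : 0 < (c : ℝ) / 2 ^ m)
    (h1 : 1 / 2 ^ (j + 1) ≤ 1 - (c : ℝ) / 2 ^ m)
    (ho : ones (c % 2 ^ (m - (2 * k + j))) ≤ (2 * k - 1).choose k) :
    NatUniform (k + j + 1) ((c : ℝ) / 2 ^ m) := by
  classical
  set δ : ℝ := (c : ℝ) / 2 ^ m with hδ
  have hex : ∃ i : ℕ, 1 / 2 ≤ 2 ^ i * (1 - δ) := by
    refine ⟨j, ?_⟩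
    have h2 := mul_le_mul_of_nonneg_left h1 (show (0 : ℝ) ≤ 2 ^ j by positivity)
    have h3 : (2 : ℝ) ^ j * (1 / 2 ^ (j + 1)) = 1 / 2 := by
      rw [pow_succ]
      field_simp
    linarith
  obtain ⟨i, hi, hmin⟩ : ∃ i : ℕ, 1 / 2 ≤ 2 ^ i * (1 - δ) ∧ ∀ s < i, 2 ^ s * (1 - δ) < 1 / 2 :=
    ⟨Nat.find hex, Nat.find_spec hex, fun s hs => not_le.1 (Nat.find_min hex hs)⟩
  have hij : i ≤ j := by
    by_contra hlt
    push Not at hlt
    have h2 := mul_le_mul_of_nonneg_left h1 (show (0 : ℝ) ≤ 2 ^ j by positivity)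
    have h3 : (2 : ℝ) ^ j * (1 / 2 ^ (j + 1)) = 1 / 2 := by
      rw [pow_succ]
      field_simp
    have := hmin j hlt
    linarith
  have hpos : 0 < 1 - 2 ^ i * (1 - δ) := by
    rcases Nat.eq_zero_or_pos i with rfl | hi0
    · simp only [pow_zero, one_mul]; linarith
    · have := hmin (i - 1) (by omega)
      have h3 : (2 : ℝ) ^ i = 2 * 2 ^ (i - 1) := by
        rw [← pow_succ']; congr 1; omega
      rw [h3]
      linarith
  have hle : δ ≤ 1 := by
    have : (0 : ℝ) < 1 / 2 ^ (j + 1) := by positivity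
    linarith
  obtain ⟨k', hk'⟩ : ∃ k', k' = k + j - i := ⟨_, rfl⟩
  have hkk' : k ≤ k' := by omega
  have hB : 2 ^ (2 * k' - 1) * (1 - 2 ^ i * (1 - δ)) ≤
      ((∑ a ∈ Finset.range k', (2 * k' - 1).choose a : ℕ) : ℝ) := by
    obtain ⟨l, hl⟩ : ∃ l, k' = l + 1 := ⟨k' - 1, by omega⟩
    have h2 : 2 * k' - 1 = 2 * l + 1 := by omega
    rw [h2, hl, Nat.sum_range_choose_halfway]
    have h3 : (2 : ℝ) ^ (2 * l + 1) = 2 * 4 ^ l := by
      rw [pow_succ, pow_mul]; norm_num; ring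
    rw [h3]
    push_cast
    have h4 : (0 : ℝ) < 4 ^ l := by positivity
    nlinarith
  have hones : ones (c % 2 ^ (m - (i + 2 * k'))) ≤ (2 * k' - 1).choose k' := by
    have h2 : c % 2 ^ (m - (i + 2 * k')) =
        c % 2 ^ (m - (2 * k + j)) % 2 ^ (m - (i + 2 * k')) := by
      rw [Nat.mod_mod_of_dvd _ (pow_dvd_pow 2 (by omega))]
    rw [h2]
    exact ((ones_mod_le _ _).trans ho).trans (choose_mono_half k k' hkk' hk)
  have h := reach_add i k' (2 * k') c m (by omega) (by omega) hpos hle hB hones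
  have h5 : k' + 1 + i = k + j + 1 := by omega
  rw [← h5]
  exact h

theorem finUniform_one (K : ℕ) : FinUniform K 1 := by
  refine ⟨0, ∅, by simp, ?_⟩
  have : (Finset.univ : Finset (Fin 0)) = ∅ := by simp
  rw [this]
  exact dens_on_empty _ (by simp)

theorem choose_unbounded (w : ℕ) : ∀ k, w + 1 ≤ k → w ≤ (2 * k - 1).choose k := by
  intro k hk
  have h1 : (2 * k - 1).choose 1 ≤ (2 * k - 1).choose k := by
    have h2 := Nat.choose_symm_half (k - 1)
    rw [show 2 * (k - 1) + 1 = 2 * k - 1 by omega, show k - 1 + 1 = k by omega] at h2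
    rw [h2]
    have h3 := Nat.choose_le_middle 1 (2 * k - 1)
    rwa [show (2 * k - 1) / 2 = k - 1 by omega] at h3
  rw [Nat.choose_one_right] at h1
  omega

end Pool.Agent.UD
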